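import Pool.Agent.H20.S6B.Tel
import Pool.Agent.H8.DPL.Defs
import Pool.Agent.H43.OC.RW

/-!
# The double plateau: (H2) and (H3) of the pure theorem in most contexts

The block is the position at the exact time in the context `F.blb w c M`.
-/

set_option autoImplicit false

namespace Pool.S6B20

open Finset Real
open Pool.Agent.H49.Ent Pool.Agent.H32.Dense Pool.STK Pool.KA Pool.KSAT Pool.K2S Pool.S6U
open Pool.PLV Pool.DPL

variable {c' J : ℕ}

/-- The first coordinate of the position at the exact time. -/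
noncomputable def by1 (F : Fam (c' + 1) J) (w : ℕ) (c : Fin (c' + 1) → ℕ)
    (M : F.Ω → Fin (c' + 1) → Fin (c' + 1) → ℝ) (ω : F.Ω) : ℝ := F.mx w c M ω 0

/-- The other coordinates. -/
noncomputable def bz (F : Fam (c' + 1) J) (w : ℕ) (c : Fin (c' + 1) → ℕ)
    (M : F.Ω → Fin (c' + 1) → Fin (c' + 1) → ℝ) (ω : F.Ω) (i : Fin c') : ℝ :=
  F.mx w c M ω i.succ

/-- The first coordinate of the velocity. -/
noncomputable def bom (F : Fam (c' + 1) J) (c : Fin (c' + 1) → ℕ)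
    (M : F.Ω → Fin (c' + 1) → Fin (c' + 1) → ℝ) (ω : F.Ω) : ℝ := F.md c M ω 0

/-- The other coordinates. -/
noncomputable def bbe (F : Fam (c' + 1) J) (c : Fin (c' + 1) → ℕ)
    (M : F.Ω → Fin (c' + 1) → Fin (c' + 1) → ℝ) (ω : F.Ω) (i : Fin c') : ℝ :=
  F.md c M ω i.succ

section det

variable {F : Fam (c' + 1) J} {w : ℕ} {c : Fin (c' + 1) → ℕ}
  {M : F.Ω → Fin (c' + 1) → Fin (c' + 1) → ℝ} {X : ℕ} {ω ω' : F.Ω}

theorem blk_of_dgx (h : dgx F w c M X ω = dgx F w c M X ω') :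
    blk X (by1 F w c M) (bz F w c M) ω = blk X (by1 F w c M) (bz F w c M) ω' :=
  Prod.ext (congrFun h 0) (funext fun i => congrFun h i.succ)

theorem dgx_of_blk (h : blk X (by1 F w c M) (bz F w c M) ω =
    blk X (by1 F w c M) (bz F w c M) ω') : dgx F w c M X ω = dgx F w c M X ω' := by
  funext i
  refine Fin.cases ?_ (fun i => ?_) i
  · exact (Prod.ext_iff.mp h).1
  · exact congrFun (Prod.ext_iff.mp h).2 i

theorem vbl_of_dgd (h : dgd F c M X ω = dgd F c M X ω') :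
    vbl X (bom F c M) (bbe F c M) ω = vbl X (bom F c M) (bbe F c M) ω' :=
  Prod.ext (congrFun h 0) (funext fun i => congrFun h i.succ)

theorem dgd_of_vbl (h : vbl X (bom F c M) (bbe F c M) ω = vbl X (bom F c M) (bbe F c M) ω') :
    dgd F c M X ω = dgd F c M X ω' := by
  funext i
  refine Fin.cases ?_ (fun i => ?_) i
  · exact (Prod.ext_iff.mp h).1
  · exact congrFun (Prod.ext_iff.mp h).2 i

end det

section tel

variable {F : Fam (c' + 1) J} {p : F.Ω → ℝ} {Γ S : Type} {w : ℕ} {c : Fin (c' + 1) → ℕ}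
  {M : F.Ω → Fin (c' + 1) → Fin (c' + 1) → ℝ} {X : ℕ}

/-- **(H2)** in most of the windows, for any variable `N`. -/
theorem h2_tel (hp : IsLaw p) (n : ℕ) (ws : ℕ → ℕ) (hws : ∀ j, j + 1 < n → ws j + X ≤ ws (j + 1))
    (hJ : ∀ j, j < n → ws j ≤ J) (N : F.Ω → S) :
    ∑ j ∈ Finset.range n, Pool.KVA.MI p (blk X (by1 F (ws j) c M) (bz F (ws j) c M)) N
      (fun ω => (F.blb (ws j) c M ω, F.T ω)) ≤
    CH p N (fun ω => (F.blb (ws 0) c M ω, F.T ω)) +
      n * ((c' + 1 : ℕ) * Real.log 7 + 2 * ((c' + 1 : ℕ) * Real.log (4 * (c' + 1 : ℕ) + 3))) := by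
  have h0 := hp.nonneg
  have key := x_tel (F := F) (c := c) (M := M) (X := X) hp n ws hws hJ (fun _ => ()) N
  have e1 : CH p N (fun ω => (F.blb (ws 0) c M ω, ((), F.T ω))) =
      CH p N (fun ω => (F.blb (ws 0) c M ω, F.T ω)) := by
    refine CH_congr h0 (fun _ _ _ _ h => (Prod.ext_iff.mp h).1)
      (fun _ _ _ _ h => (Prod.ext_iff.mp h).1) ?_ ?_
    · intro ω ω' _ _ h
      simp only [Prod.mk.injEq] at h ⊢
      tauto
    · intro ω ω' _ _ h
      simp only [Prod.mk.injEq] at h ⊢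
      tauto
  rw [e1] at key
  refine le_trans (Finset.sum_le_sum fun j _ => ?_) key
  rw [MI_eq_dp h0, dp_symm h0]
  rw [dp_congr_cond h0 (b := fun ω => (F.blb (ws j) c M ω, ((), F.T ω)))
    (b' := fun ω => (F.blb (ws j) c M ω, F.T ω))
    (fun ω ω' _ _ h => by
      simp only [Prod.mk.injEq] at h ⊢
      tauto)
    (fun ω ω' _ _ h => by
      simp only [Prod.mk.injEq] at h ⊢
      tauto)]
  exact dp_mono h0 (fun _ _ _ _ h => (Prod.ext_iff.mp h).1)
    (fun ω ω' _ _ h => blk_of_dgx (Prod.ext_iff.mp h).1)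

/-- The entropy of the velocity block. -/
theorem CH_vbl (hp : IsLaw p) (W : F.Ω → S) :
    CH p (vbl X (bom F c M) (bbe F c M)) W ≤ ((c' + 1 : ℕ) : ℝ) * Real.log (2 * 2 ^ X + 1) := by
  have h0 := hp.nonneg
  refine (CH_mono_left h0 (X' := dgd F c M X) (fun ω ω' _ _ h => ?_)).trans ?_
  · exact vbl_of_dgd (Prod.ext_iff.mp h).1
  · refine Lab.CH_fin_const hp _ W ?_
    intro ω ω' _ _ _ i
    have a1 := Box.md_mem F c M ω i
    have a2 := Box.md_mem F c M ω' i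
    have f1 : 0 ≤ ⌊(2 : ℝ) ^ X * F.md c M ω i⌋ := Int.floor_nonneg.2 (by
      have := a1.1
      positivity)
    have f2 : 0 ≤ ⌊(2 : ℝ) ^ X * F.md c M ω' i⌋ := Int.floor_nonneg.2 (by
      have := a2.1
      positivity)
    have f3 : (⌊(2 : ℝ) ^ X * F.md c M ω i⌋ : ℝ) ≤ 2 ^ X := (Int.floor_le _).trans (by
      have : (0 : ℝ) < 2 ^ X := by positivity
      nlinarith [a1.2])
    have f4 : (⌊(2 : ℝ) ^ X * F.md c M ω' i⌋ : ℝ) ≤ 2 ^ X := (Int.floor_le _).trans (by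
      have : (0 : ℝ) < 2 ^ X := by positivity
      nlinarith [a2.2])
    have f5 : (0 : ℝ) ≤ ⌊(2 : ℝ) ^ X * F.md c M ω i⌋ := by exact_mod_cast f1
    have f6 : (0 : ℝ) ≤ ⌊(2 : ℝ) ^ X * F.md c M ω' i⌋ := by exact_mod_cast f2
    show |((⌊(2 : ℝ) ^ X * F.md c M ω i⌋ - ⌊(2 : ℝ) ^ X * F.md c M ω' i⌋ : ℤ) : ℝ)| ≤ 2 ^ X
    push_cast
    rw [abs_le]
    constructor <;> linarith

theorem dbl_pos1 {Ω Λ : Type} [Fintype Ω] {p : Ω → ℝ} (h0 : ∀ ω, 0 ≤ p ω) (sl : Ω → Λ)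
    {x : Ω × Ω} (hx : 0 < dbl p sl x) : 0 < p x.1 := by
  classical
  have h := Pool.Agent.H32.Dense.dbl_fst (b := sl) h0 x.1
  rw [← h]
  refine lt_of_lt_of_le hx ?_
  have h1 := Finset.single_le_sum (f := fun w : Ω × Ω =>
    if w.1 = x.1 then dbl p sl w else 0) (fun w _ => by
      split_ifs
      · exact dbl_nonneg h0 w
      · exact le_rfl) (Finset.mem_univ x)
  simpa using h1

/-- **(H3)** in most of the scales. -/
theorem h3_tel {Λ : Type} (hp : IsLaw p) (sl : F.Ω → Λ) (n : ℕ) (cs : ℕ → Fin (c' + 1) → ℕ)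
    (hcs : ∀ k, k + 1 < n → ∀ i, cs k i + X ≤ cs (k + 1) i) (G : ℕ → F.Ω → Γ)
    (hG : ∀ k, ∀ ω ω', 0 < p ω → 0 < p ω' → G (k + 1) ω = G (k + 1) ω' → G k ω = G k ω')
    (R : F.Ω → S) :
    ∑ k ∈ Finset.range n, Pool.KVA.MI (dbl p sl)
      (fun x => blk X (by1 F w (cs k) M) (bz F w (cs k) M) x.1) (fun x => R x.2)
      (fun x => ((vbl X (bom F (cs k) M) (bbe F (cs k) M) x.1, G k x.1),
        (F.blb w (cs k) M x.1, F.T x.1))) ≤
    CH (dbl p sl) (fun x => R x.2) (fun x => (F.blb w (cs 0) M x.1, (G 0 x.1, F.T x.1))) +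
      n * ((c' + 1 : ℕ) * Real.log 7) := by
  have hq : IsLaw (dbl p sl) := Pool.OC.isLaw_dbl hp sl
  have h0 := hq.nonneg
  have hM1 : ∀ x : F.Ω × F.Ω, 0 < dbl p sl x → 0 < p x.1 := fun x => dbl_pos1 hp.nonneg sl
  have key := q_tel_ext (F := F) (M := M) (w := w) (X := X) hq (fun x : F.Ω × F.Ω => x.1) n cs hcs
    (fun k x => G k x.1) (fun k x y hx hy h => hG k _ _ (hM1 x hx) (hM1 y hy) h)
    (fun x => R x.2)
  refine le_trans (Finset.sum_le_sum fun k _ => ?_) key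
  rw [MI_eq_dp h0]
  have a1 := dp_add h0 (fun x : F.Ω × F.Ω => blk X (by1 F w (cs k) M) (bz F w (cs k) M) x.1)
    (fun x => vbl X (bom F (cs k) M) (bbe F (cs k) M) x.1) (fun x => R x.2)
    (fun x => (F.blb w (cs k) M x.1, (G k x.1, F.T x.1)))
  have a2 : dp (dbl p sl) (fun x => blk X (by1 F w (cs k) M) (bz F w (cs k) M) x.1)
      (fun x => R x.2) (fun x => ((vbl X (bom F (cs k) M) (bbe F (cs k) M) x.1, G k x.1),
        (F.blb w (cs k) M x.1, F.T x.1))) =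
      dp (dbl p sl) (fun x => blk X (by1 F w (cs k) M) (bz F w (cs k) M) x.1)
      (fun x => R x.2) (fun x => (vbl X (bom F (cs k) M) (bbe F (cs k) M) x.1,
        (F.blb w (cs k) M x.1, (G k x.1, F.T x.1)))) := by
    refine dp_congr_cond h0 ?_ ?_ <;>
    · intro x y _ _ h
      simp only [Prod.mk.injEq] at h ⊢
      tauto
  have a3 := dp_nonneg h0 (fun x : F.Ω × F.Ω => vbl X (bom F (cs k) M) (bbe F (cs k) M) x.1)
    (fun x => R x.2) (fun x => (F.blb w (cs k) M x.1, (G k x.1, F.T x.1)))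
  have a4 := dp_symm h0 (fun x : F.Ω × F.Ω => (blk X (by1 F w (cs k) M) (bz F w (cs k) M) x.1,
    vbl X (bom F (cs k) M) (bbe F (cs k) M) x.1)) (fun x => R x.2)
    (fun x => (F.blb w (cs k) M x.1, (G k x.1, F.T x.1)))
  have a5 : dp (dbl p sl) (fun x => R x.2) (fun x =>
      (blk X (by1 F w (cs k) M) (bz F w (cs k) M) x.1,
        vbl X (bom F (cs k) M) (bbe F (cs k) M) x.1))
      (fun x => (F.blb w (cs k) M x.1, (G k x.1, F.T x.1))) ≤
      dp (dbl p sl) (fun x => R x.2)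
      (fun x => (dgd F (cs k) M X x.1, dgx F w (cs k) M X x.1))
      (fun x => (F.blb w (cs k) M x.1, (G k x.1, F.T x.1))) := by
    refine dp_mono h0 (fun _ _ _ _ h => (Prod.ext_iff.mp h).1) (fun x y _ _ h => ?_)
    have h1 := Prod.ext_iff.mp (Prod.ext_iff.mp h).1
    exact Prod.ext (blk_of_dgx h1.2) (vbl_of_dgd h1.1)
  linarith

end tel

end Pool.S6B20
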