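import Pool.Agent.H20.S6B.DpT
import Pool.Agent.H8.DPL.Stmt

/-!
# The double plateau: the telescopes (TEL1) and (TEL3)
-/

set_option autoImplicit false

namespace Pool.S6B20

open Finset Real
open Pool.Agent.H49.Ent Pool.Agent.H32.Dense Pool.STK Pool.KA Pool.KSAT Pool.K2S Pool.S6U
open Pool.PLV Pool.DPL

variable {J : ℕ}

section gen

variable {m : ℕ} {F : Fam m J} {p : F.Ω → ℝ} {S : Type} {c : Fin m → ℕ}
  {M : F.Ω → Fin m → Fin m → ℝ} {X : ℕ}

theorem x_tel0 (hp : IsLaw p) (n : ℕ) (ws : ℕ → ℕ) (hws : ∀ j, j + 1 < n → ws j + X ≤ ws (j + 1))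
    (hJ : ∀ j, j < n → ws j ≤ J) (N : F.Ω → S) :
    ∑ j ∈ Finset.range n, dp p N (dgx F (ws j) c M X) (fun ω => (F.blb (ws j) c M ω, F.T ω)) ≤
    CH p N (fun ω => (F.blb (ws 0) c M ω, F.T ω)) +
      n * (m * Real.log 7 + 2 * (m * Real.log (4 * m + 3))) := by
  have h0 := hp.nonneg
  have key := x_tel (F := F) (c := c) (M := M) (X := X) hp n ws hws hJ (fun _ => ()) N
  have e1 : CH p N (fun ω => (F.blb (ws 0) c M ω, ((), F.T ω))) =
      CH p N (fun ω => (F.blb (ws 0) c M ω, F.T ω)) := by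
    refine CH_congr h0 (fun _ _ _ _ h => (Prod.ext_iff.mp h).1)
      (fun _ _ _ _ h => (Prod.ext_iff.mp h).1) ?_ ?_ <;>
    · intro ω ω' _ _ h
      simp only [Prod.mk.injEq] at h ⊢
      tauto
  rw [e1] at key
  refine le_trans (Finset.sum_le_sum fun j _ => le_of_eq ?_) key
  refine dp_congr_cond h0 ?_ ?_ <;>
  · intro ω ω' _ _ h
    simp only [Prod.mk.injEq] at h ⊢
    tauto

end gen

/-! ### The block of the position -/

section blk

variable {F : Fam 3 J} {Ω' : Type} [Fintype Ω'] {p : Ω' → ℝ} {S : Type} {pr : Ω' → F.Ω}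
  {σ : Fin 3 → Fin 3} {w q V H X n : ℕ} {a s t : F.Ω → ℝ}
  {al kk : (Fin 3 → ℤ) × (ℕ × F.ζ) → ℝ} {B : ℝ}

/-- The block of the position, from the digits of the position in the box. -/
theorem CH_pbl (hp : IsLaw p) (W : Ω' → S) (hW : ∀ x x', 0 < p x → 0 < p x' → W x = W x' →
    dgx F w (cvl q V H) (frm σ a s t) X (pr x) = dgx F w (cvl q V H) (frm σ a s t) X (pr x') ∧
    ctx F σ w q V H a s t (pr x) = ctx F σ w q V H a s t (pr x') ∧
    F.T (pr x) = F.T (pr x')) :
    CH p (fun x => pbl F σ w q V H X a s t (pr x)) W ≤ 3 * Real.log 5 := by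
  have h0 := hp.nonneg
  have e5 : (3 : ℝ) * Real.log 5 = ((3 : ℕ) : ℝ) * Real.log (2 * 2 + 1) := by norm_num
  rw [e5]
  refine (CH_mono_left h0 (X' := fun x (i : Fin 3) => ⌊(2 : ℝ) ^ X *
    ypos F σ w q V H a s t (pr x) i⌋) (fun x x' _ _ h => ?_)).trans
    (Plk.CH_vec_const hp _ W fun x x' hx hx' h i => ?_)
  · have h1 := (Prod.ext_iff.mp h).1
    exact Prod.ext (congrFun h1 0) (funext fun i => congrFun h1 i.succ)
  · obtain ⟨b1, b2, b3⟩ := hW x x' hx hx' h
    have k1 := Plk.abs_sub_lt_of_floor (congrFun b1 i :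
      ⌊(2 : ℝ) ^ X * F.mx w (cvl q V H) (frm σ a s t) (pr x) i⌋ =
        ⌊(2 : ℝ) ^ X * F.mx w (cvl q V H) (frm σ a s t) (pr x') i⌋)
    have k2 := congrFun (Box.mkn_det b2 b3) i
    refine (Plk.floor_sub_lt (c := 1) ?_).trans (by norm_num)
    have e : (2 : ℝ) ^ X * ypos F σ w q V H a s t (pr x) i -
        2 ^ X * ypos F σ w q V H a s t (pr x') i =
        2 ^ X * F.mx w (cvl q V H) (frm σ a s t) (pr x) i -
          2 ^ X * F.mx w (cvl q V H) (frm σ a s t) (pr x') i := by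
      unfold ypos
      rw [k2]
      ring
    rw [e]
    exact k1

/-- The own slopes, if the frame is known. -/
theorem CH_Gn (hp : IsLaw p) (hB : 1 ≤ B) (W : Ω' → S)
    (h1 : ∀ x, 0 < p x → |al (Fam.pt F (pr x)) - a (pr x)| ≤ B / 2 ^ V)
    (h2 : ∀ x, 0 < p x → |kk (Fam.pt F (pr x))| ≤ B / 2 ^ (V + H))
    (hW : ∀ x x', 0 < p x → 0 < p x' → W x = W x' → a (pr x) = a (pr x')) :
    CH p (fun x => Gn F V H n al kk (pr x)) W ≤
      2 * (n * Real.log 2 + Real.log (4 * B + 3)) := by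
  have h0 := hp.nonneg
  have hn : (1 : ℝ) ≤ 2 ^ n := one_le_pow₀ (by norm_num)
  have hlog : Real.log (2 * (2 * B * 2 ^ n + 1) + 1) ≤ n * Real.log 2 + Real.log (4 * B + 3) := by
    have e : (n : ℝ) * Real.log 2 + Real.log (4 * B + 3) = Real.log (2 ^ n * (4 * B + 3)) := by
      rw [Real.log_mul (by positivity) (by linarith), Real.log_pow]
    rw [e]
    exact Real.log_le_log (by positivity) (by nlinarith)
  have key1 : CH p (fun x => ⌊(2 : ℝ) ^ (V + n) * al (Fam.pt F (pr x))⌋) W ≤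
      n * Real.log 2 + Real.log (4 * B + 3) := by
    refine (CH_int hp _ W (c := 2 * B * 2 ^ n + 1) fun x x' hx hx' h => ?_).trans hlog
    refine Plk.floor_sub_lt (c := 2 * B * 2 ^ n) ?_
    have a1 := h1 x hx
    have a2 := h1 x' hx'
    have a3 := hW x x' hx hx' h
    have e : (2 : ℝ) ^ (V + n) * al (Fam.pt F (pr x)) - 2 ^ (V + n) * al (Fam.pt F (pr x')) =
        2 ^ (V + n) * (al (Fam.pt F (pr x)) - a (pr x)) -
          2 ^ (V + n) * (al (Fam.pt F (pr x')) - a (pr x')) := by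
      rw [a3]
      ring
    have e2 : (2 : ℝ) ^ (V + n) * (B / 2 ^ V) = B * 2 ^ n := by
      rw [pow_add]
      field_simp
    have e3 : |(2 : ℝ) ^ (V + n) * (al (Fam.pt F (pr x)) - a (pr x))| ≤ B * 2 ^ n := by
      rw [abs_mul, abs_of_pos (by positivity : (0 : ℝ) < 2 ^ (V + n)), ← e2]
      exact mul_le_mul_of_nonneg_left a1 (by positivity)
    have e4 : |(2 : ℝ) ^ (V + n) * (al (Fam.pt F (pr x')) - a (pr x'))| ≤ B * 2 ^ n := by
      rw [abs_mul, abs_of_pos (by positivity : (0 : ℝ) < 2 ^ (V + n)), ← e2]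
      exact mul_le_mul_of_nonneg_left a2 (by positivity)
    rw [e]
    refine (abs_sub _ _).trans ?_
    linarith
  have key2 : CH p (fun x => ⌊(2 : ℝ) ^ (V + H + n) * kk (Fam.pt F (pr x))⌋) W ≤
      n * Real.log 2 + Real.log (4 * B + 3) := by
    refine (CH_int hp _ W (c := 2 * B * 2 ^ n + 1) fun x x' hx hx' h => ?_).trans hlog
    refine Plk.floor_sub_lt (c := 2 * B * 2 ^ n) ?_
    have a1 := h2 x hx
    have a2 := h2 x' hx'
    have e2 : (2 : ℝ) ^ (V + H + n) * (B / 2 ^ (V + H)) = B * 2 ^ n := by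
      rw [pow_add]
      field_simp
    have e3 : |(2 : ℝ) ^ (V + H + n) * kk (Fam.pt F (pr x))| ≤ B * 2 ^ n := by
      rw [abs_mul, abs_of_pos (by positivity : (0 : ℝ) < 2 ^ (V + H + n)), ← e2]
      exact mul_le_mul_of_nonneg_left a1 (by positivity)
    have e4 : |(2 : ℝ) ^ (V + H + n) * kk (Fam.pt F (pr x'))| ≤ B * 2 ^ n := by
      rw [abs_mul, abs_of_pos (by positivity : (0 : ℝ) < 2 ^ (V + H + n)), ← e2]
      exact mul_le_mul_of_nonneg_left a2 (by positivity)
    refine (abs_sub _ _).trans ?_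
    linarith
  have key3 := CH_subadd h0 (fun x => ⌊(2 : ℝ) ^ (V + n) * al (Fam.pt F (pr x))⌋)
    (fun x => ⌊(2 : ℝ) ^ (V + H + n) * kk (Fam.pt F (pr x))⌋) W
  have key4 : CH p (fun x => Gn F V H n al kk (pr x)) W =
      CH p (fun x => (⌊(2 : ℝ) ^ (V + n) * al (Fam.pt F (pr x))⌋,
        ⌊(2 : ℝ) ^ (V + H + n) * kk (Fam.pt F (pr x))⌋)) W := rfl
  linarith

end blk

/-- The frame determines the slope. -/
theorem frm_a {F : Fam 3 J} {σ : Fin 3 → Fin 3} {a s t : F.Ω → ℝ} {ω ω' : F.Ω}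
    (h : frm σ a s t ω = frm σ a s t ω') : a ω = a ω' := by
  have h1 : tfr σ (a ω) (s ω) (t ω) 1 (σ 0) = tfr σ (a ω') (s ω') (t ω') 1 (σ 0) :=
    congrFun (congrFun h 1) (σ 0)
  have e : ∀ x y z : ℝ, tfr σ x y z 1 (σ 0) = (if σ 0 = σ 1 then 1 else 0) - x := by
    intro x y z
    simp [tfr]
  rw [e, e] at h1
  linarith

theorem ws_mono {N X : ℕ} {w : ℕ → ℕ} (h : ∀ j < N, w j + X ≤ w (j + 1)) {j : ℕ} (hj : j ≤ N) :
    w j ≤ w N := by
  obtain ⟨d, rfl⟩ := Nat.exists_eq_add_of_le hj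
  clear hj
  induction d with
  | zero => exact le_rfl
  | succ d ih =>
    have h1 := ih fun i hi => h i (by omega)
    have h2 := h (j + d) (by omega)
    have e : j + (d + 1) = j + d + 1 := rfl
    rw [e]
    omega

/-- **(TEL1)** -/
theorem tel1 : Tel1Stmt := by
  intro B hB
  refine ⟨3 * Real.log 7 + 2 * (3 * Real.log 15) + 3 * Real.log 5 +
    (6 * Real.log 2 + 2 * Real.log (4 * B + 3)), ?_, ?_⟩
  · have l1 := Real.log_nonneg (show (1 : ℝ) ≤ 7 by norm_num)
    have l2 := Real.log_nonneg (show (1 : ℝ) ≤ 15 by norm_num)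
    have l3 := Real.log_nonneg (show (1 : ℝ) ≤ 5 by norm_num)
    have l4 := Real.log_nonneg (show (1 : ℝ) ≤ 2 by norm_num)
    have l5 := Real.log_nonneg (show (1 : ℝ) ≤ 4 * B + 3 by linarith)
    linarith
  intro J F A σ N X w q V H n a s t al kk hp hws hJ _ h1 h2
  have h0 := hp.nonneg
  have hA : ∀ ω, 0 < Pool.Agent.H49.Ent.cond F.p A True ω → A ω := fun ω h =>
    ((ev_pos F.isLaw.nonneg).1 h).2
  have l1 := Real.log_nonneg (show (1 : ℝ) ≤ 7 by norm_num)
  have l2 := Real.log_nonneg (show (1 : ℝ) ≤ 15 by norm_num)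
  have l3 := Real.log_nonneg (show (1 : ℝ) ≤ 5 by norm_num)
  have l4 := Real.log_nonneg (show (1 : ℝ) ≤ 2 by norm_num)
  have l5 := Real.log_nonneg (show (1 : ℝ) ≤ 4 * B + 3 by linarith)
  have key := x_tel0 (F := F) (c := cvl q V H) (M := frm σ a s t) (X := X) hp N w
    (fun j hj => hws j (by omega)) (fun j hj => by
      have := ws_mono hws hj.le
      omega) (fun ω => (vdg F σ q V H X a s t ω, Gn F V H n al kk ω))
  -- the first term
  have a1 : CH (Pool.Agent.H49.Ent.cond F.p A True)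
      (fun ω => (vdg F σ q V H X a s t ω, Gn F V H n al kk ω))
      (fun ω => (F.blb (w 0) (cvl q V H) (frm σ a s t) ω, F.T ω)) ≤
      (3 * X + 2 * n) * Real.log 2 + (6 * Real.log 2 + 2 * Real.log (4 * B + 3)) := by
    have b1 := CH_subadd h0 (vdg F σ q V H X a s t) (Gn F V H n al kk)
      (fun ω => (F.blb (w 0) (cvl q V H) (frm σ a s t) ω, F.T ω))
    have b2 : CH (Pool.Agent.H49.Ent.cond F.p A True) (vdg F σ q V H X a s t)
        (fun ω => (F.blb (w 0) (cvl q V H) (frm σ a s t) ω, F.T ω)) ≤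
        ((2 + 1 : ℕ) : ℝ) * Real.log (2 * 2 ^ X + 1) :=
      CH_vbl (c' := 2) (F := F) (c := cvl q V H) (M := frm σ a s t) (X := X) hp _
    have b3 : Real.log (2 * 2 ^ X + 1) ≤ X * Real.log 2 + 2 * Real.log 2 := by
      have e : (X : ℝ) * Real.log 2 + 2 * Real.log 2 = Real.log (2 ^ X * 2 ^ 2) := by
        rw [Real.log_mul (by positivity) (by positivity), Real.log_pow, Real.log_pow]
        push_cast
        ring
      rw [e]
      have hX : (1 : ℝ) ≤ 2 ^ X := one_le_pow₀ (by norm_num)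
      exact Real.log_le_log (by positivity) (by nlinarith)
    have b4 := CH_Gn (F := F) (pr := fun ω => ω) (V := V) (H := H) (n := n) (a := a) (al := al)
      (kk := kk) (B := B) hp hB (fun ω => (F.blb (w 0) (cvl q V H) (frm σ a s t) ω, F.T ω))
      (fun x hx => h1 x (hA x hx)) (fun x hx => h2 x (hA x hx))
      (fun x x' _ _ h => frm_a (Box.mlb_ext (Prod.ext_iff.mp h).1).2.1)
    push_cast at b2
    linarith
  -- the terms
  have a2 : ∀ j ∈ range N, cost1 F A σ w q V H X n a s t al kk j ≤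
      dp (Pool.Agent.H49.Ent.cond F.p A True)
        (fun ω => (vdg F σ q V H X a s t ω, Gn F V H n al kk ω))
        (dgx F (w j) (cvl q V H) (frm σ a s t) X)
        (fun ω => (F.blb (w j) (cvl q V H) (frm σ a s t) ω, F.T ω)) + 3 * Real.log 5 := by
    intro j _
    unfold cost1
    rw [MI_eq_dp h0, dp_symm h0]
    refine dp_le_add_right h0 ?_
    refine CH_pbl (F := F) (pr := fun ω => ω) hp _ fun x x' _ _ h => ?_
    have c1 := Prod.ext_iff.mp h
    have c2 := Prod.ext_iff.mp c1.2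
    exact ⟨c1.1, c2.1, c2.2⟩
  have a3 := Finset.sum_le_sum a2
  rw [Finset.sum_add_distrib, Finset.sum_const, card_range, nsmul_eq_mul] at a3
  have e15 : (4 : ℝ) * ((3 : ℕ) : ℝ) + 3 = 15 := by norm_num
  rw [e15] at key
  push_cast at key
  have hN : (0 : ℝ) ≤ N := Nat.cast_nonneg N
  have f1 : 0 ≤ (N : ℝ) * (6 * Real.log 2 + 2 * Real.log (4 * B + 3)) :=
    mul_nonneg hN (by linarith)
  nlinarith

/-- A second sample of the time, in the doubled law. -/
theorem time_dbl {m : ℕ} {F : Fam m J} {p : F.Ω → ℝ} {S T : Type} (hp : IsLaw p) {g : ℕ}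
    (hg : g ≤ J) {e : ℝ} (hT : (J : ℝ) * Real.log 2 - e ≤ CH p F.T (fun ω => (F.l ω, F.Z ω)))
    (V : F.Ω → S) (b : F.Ω → T) (hb : Det p b (F.T1 g)) :
    dp (dbl p (slam F g)) (fun x => F.T x.2) (fun x => V x.1) (fun x => b x.1) ≤ e := by
  have h0 := hp.nonneg
  have hq : IsLaw (dbl p (slam F g)) := Pool.OC.isLaw_dbl hp _
  have hq0 := hq.nonneg
  have h1 := time_digits (F.ext p hp id) (w := g) (K := J - g) (by omega) (e := e) hT
  have h2 : CH p (fun ω => (F.T1 (g + (J - g)) ω : ℤ)) (slam F g) ≤ CH p F.T (slam F g) := by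
    refine CH_mono_left h0 (X' := F.T) (fun ω ω' _ _ h => ?_)
    show ((F.T1 (g + (J - g)) ω : ℕ) : ℤ) = F.T1 (g + (J - g)) ω'
    unfold Fam.T1
    have h3 : F.T ω = F.T ω' := (Prod.ext_iff.mp h).1
    rw [h3]
  have h3 : CH (dbl p (slam F g)) (fun x => F.T x.2) (fun x => (slam F g x.2, x.1)) =
      CH p F.T (slam F g) := CH_dbl_2 (b := slam F g) h0 F.T (fun ω => ω)
  have h4 : CH (dbl p (slam F g)) (fun x => F.T x.2) (fun x => (slam F g x.2, x.1)) ≤
      CH (dbl p (slam F g)) (fun x => F.T x.2) (fun x => (V x.1, b x.1)) := by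
    refine CH_mono_cond hq0 fun x y _ _ h => ?_
    have c1 : x.1 = y.1 := (Prod.ext_iff.mp h).2
    rw [c1]
  have h5 : CH (dbl p (slam F g)) (fun x => F.T x.2) (fun x => b x.1) ≤
      ((J - g : ℕ) : ℝ) * Real.log 2 := by
    have h6 : CH (dbl p (slam F g)) (fun x => F.T x.2) (fun x => b x.1) ≤
        CH (dbl p (slam F g)) (fun x => F.T x.2) (fun x => F.T1 g x.1) := by
      refine CH_mono_cond hq0 fun x y hx hy h => ?_
      exact hb _ _ (dbl_pos1 h0 _ hx) (dbl_pos1 h0 _ hy) h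
    refine h6.trans ?_
    refine (CH_le_card hq0 hq.sum_one (fun x : F.Ω × F.Ω => F.T x.2) _
      (fun v => Finset.Ico (v * 2 ^ (J - g)) ((v + 1) * 2 ^ (J - g))) ?_).trans ?_
    · intro x hx
      have c1 : slam F g x.1 = slam F g x.2 := dbl_eq h0 hx
      have c2 : F.T1 g x.1 = F.T1 g x.2 :=
        (Prod.ext_iff.mp (Prod.ext_iff.mp c1).2).2
      rw [Finset.mem_Ico, c2]
      show F.T1 g x.2 * 2 ^ (J - g) ≤ F.T x.2 ∧ F.T x.2 < (F.T1 g x.2 + 1) * 2 ^ (J - g)
      unfold Fam.T1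
      constructor
      · exact Nat.div_mul_le_self _ _
      · rw [← Nat.div_lt_iff_lt_mul (by positivity)]
        exact Nat.lt_succ_self _
    · refine le_of_eq ?_
      have : ∀ v : ℕ, (Finset.Ico (v * 2 ^ (J - g)) ((v + 1) * 2 ^ (J - g))).card =
          2 ^ (J - g) := by
        intro v
        rw [Nat.card_Ico, add_mul, one_mul, Nat.add_sub_cancel_left]
      simp only [this]
      push_cast
      rw [Ex_const hq.sum_one, Real.log_pow]
  have h7 : ((J - g : ℕ) : ℝ) * Real.log 2 - e ≤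
      CH p (fun ω => (F.T1 (g + (J - g)) ω : ℤ)) (slam F g) := h1
  unfold dp
  linarith

/-- **(TEL3)** -/
theorem tel3 : Tel3Stmt := by
  intro B hB
  refine ⟨3 * Real.log 7 + 3 * Real.log 5 + 2 * Real.log (4 * B + 3), ?_, ?_⟩
  · have l1 := Real.log_nonneg (show (1 : ℝ) ≤ 7 by norm_num)
    have l3 := Real.log_nonneg (show (1 : ℝ) ≤ 5 by norm_num)
    have l5 := Real.log_nonneg (show (1 : ℝ) ≤ 4 * B + 3 by linarith)
    linarith
  intro J F A σ M X g q V H n a s t al kk e he hp hJ hT hdet h1 h2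
  have h0 := hp.nonneg
  have hA : ∀ ω, 0 < Pool.Agent.H49.Ent.cond F.p A True ω → A ω := fun ω h =>
    ((ev_pos F.isLaw.nonneg).1 h).2
  have l1 := Real.log_nonneg (show (1 : ℝ) ≤ 7 by norm_num)
  have l3 := Real.log_nonneg (show (1 : ℝ) ≤ 5 by norm_num)
  have l4 := Real.log_nonneg (show (1 : ℝ) ≤ 2 by norm_num)
  have l5 := Real.log_nonneg (show (1 : ℝ) ≤ 4 * B + 3 by linarith)
  have hgJ : g ≤ J := by omega
  obtain ⟨p, hpe⟩ : ∃ p, p = Pool.Agent.H49.Ent.cond F.p A True := ⟨_, rfl⟩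
  rw [← hpe] at hp h0 hA hT hdet
  have hq : IsLaw (dbl p (slam F g)) := Pool.OC.isLaw_dbl hp _
  have hq0 := hq.nonneg
  have q1 : ∀ x : F.Ω × F.Ω, 0 < dbl p (slam F g) x → 0 < p x.1 := fun x => dbl_pos1 h0 _
  have q2 : ∀ x : F.Ω × F.Ω, 0 < dbl p (slam F g) x → 0 < p x.2 := fun x hx => by
    have hx' : 0 < dbl p (slam F g) (x.2, x.1) := by rw [← dbl_swap]; exact hx
    exact dbl_pos1 h0 _ hx'
  have q3 : ∀ x : F.Ω × F.Ω, 0 < dbl p (slam F g) x → a x.1 = a x.2 := fun x hx =>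
    (Prod.ext_iff.mp (hdet _ _ (q1 x hx) (q2 x hx) (dbl_eq h0 hx))).1
  have key := q_tel_ext (F := F) (M := frm σ a s t) (w := g) (X := X) hq
    (fun x : F.Ω × F.Ω => x.1) M (fun k => cvl (q + k * X) V H)
    (fun k _ i => by
      have e : q + (k + 1) * X = q + k * X + X := by ring
      rw [e]
      fin_cases i
      · exact le_rfl
      · show q + k * X + V + X ≤ q + k * X + X + V
        omega
      · show q + k * X + V + H + X ≤ q + k * X + X + V + H
        omega)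
    (fun _ x => (Gn F V H n al kk x.1, F.T x.2)) (fun _ _ _ _ _ h => h)
    (fun x => Gn F V H X al kk x.2)
  -- the first term
  have a1 : CH (dbl p (slam F g)) (fun x => Gn F V H X al kk x.2)
      (fun x => (F.blb g (cvl (q + 0 * X) V H) (frm σ a s t) x.1,
        ((Gn F V H n al kk x.1, F.T x.2), F.T x.1))) ≤
      2 * X * Real.log 2 + 2 * Real.log (4 * B + 3) := by
    have b4 := CH_Gn (F := F) (pr := fun x : F.Ω × F.Ω => x.2) (V := V) (H := H) (n := X) (a := a)
      (al := al) (kk := kk) (B := B) hq hB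
      (fun x => (F.blb g (cvl (q + 0 * X) V H) (frm σ a s t) x.1,
        ((Gn F V H n al kk x.1, F.T x.2), F.T x.1)))
      (fun x hx => h1 _ (hA _ (q2 x hx))) (fun x hx => h2 _ (hA _ (q2 x hx)))
      (fun x x' hx hx' h => by
        have c1 : a x.1 = a x'.1 := frm_a (Box.mlb_ext (Prod.ext_iff.mp h).1).2.1
        rw [← q3 x hx, ← q3 x' hx', c1])
    linarith
  -- the terms
  have a2 : ∀ k ∈ range M, cost3 F A σ V H X n a s t al kk g (q + k * X) ≤
      dp (dbl p (slam F g)) (fun x => Gn F V H X al kk x.2)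
        (fun x => (dgd F (cvl (q + k * X) V H) (frm σ a s t) X x.1,
          dgx F g (cvl (q + k * X) V H) (frm σ a s t) X x.1))
        (fun x => (F.blb g (cvl (q + k * X) V H) (frm σ a s t) x.1,
          ((Gn F V H n al kk x.1, F.T x.2), F.T x.1))) + (e + 3 * Real.log 5) := by
    intro k _
    unfold cost3
    rw [← hpe, MI_eq_dp hq0, dp_symm hq0]
    obtain ⟨v, hv⟩ : ∃ v : F.Ω → (ℤ × (Fin 2 → ℤ)), v = vdg F σ (q + k * X) V H X a s t :=
      ⟨_, rfl⟩
    have hv' : ∀ ω ω', dgd F (cvl (q + k * X) V H) (frm σ a s t) X ω =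
        dgd F (cvl (q + k * X) V H) (frm σ a s t) X ω' → v ω = v ω' := by
      intro ω ω' h
      rw [hv]
      exact vbl_of_dgd (c' := 2) h
    have hv2 : ∀ ω ω', v ω = v ω' → dgd F (cvl (q + k * X) V H) (frm σ a s t) X ω =
        dgd F (cvl (q + k * X) V H) (frm σ a s t) X ω' := by
      intro ω ω' h
      rw [hv] at h
      exact dgd_of_vbl (c' := 2) h
    rw [← hv]
    -- exchange of the references
    have b1 : dp (dbl p (slam F g)) (fun x => (F.T x.2, Gn F V H X al kk x.2))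
        (fun x => pbl F σ g (q + k * X) V H X a s t x.1)
        (fun x => ((v x.1, Gn F V H n al kk x.1),
          (ctx F σ g (q + k * X) V H a s t x.1, F.T x.1))) ≤
        dp (dbl p (slam F g)) (fun x => (Gn F V H X al kk x.2, F.T x.2))
        (fun x => pbl F σ g (q + k * X) V H X a s t x.1)
        (fun x => ((v x.1, Gn F V H n al kk x.1),
          (ctx F σ g (q + k * X) V H a s t x.1, F.T x.1))) := by
      refine dp_mono hq0 (fun x y _ _ h => ?_) (fun _ _ _ _ h => (Prod.ext_iff.mp h).1)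
      have := Prod.ext_iff.mp (Prod.ext_iff.mp h).1
      exact Prod.ext this.2 this.1
    have b2 := dp_add hq0 (fun x : F.Ω × F.Ω => Gn F V H X al kk x.2) (fun x => F.T x.2)
      (fun x => pbl F σ g (q + k * X) V H X a s t x.1)
      (fun x => ((v x.1, Gn F V H n al kk x.1),
        (ctx F σ g (q + k * X) V H a s t x.1, F.T x.1)))
    have b3 := time_dbl hp hgJ hT (pbl F σ g (q + k * X) V H X a s t)
      (fun ω => ((v ω, Gn F V H n al kk ω), (ctx F σ g (q + k * X) V H a s t ω, F.T ω)))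
      (fun ω ω' _ _ h => (Box.mlb_ext (Prod.ext_iff.mp (Prod.ext_iff.mp h).2).1).1)
    -- the position in the box
    have b4 := dp_le_add_right (N := fun x : F.Ω × F.Ω => Gn F V H X al kk x.2) hq0
      (V := fun x => pbl F σ g (q + k * X) V H X a s t x.1)
      (V' := fun x => dgx F g (cvl (q + k * X) V H) (frm σ a s t) X x.1)
      (b := fun x => (F.T x.2, ((v x.1, Gn F V H n al kk x.1),
        (ctx F σ g (q + k * X) V H a s t x.1, F.T x.1)))) (c := 3 * Real.log 5)
      (CH_pbl (F := F) (pr := fun x : F.Ω × F.Ω => x.1) hq _ fun x x' _ _ h => by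
        have c1 := Prod.ext_iff.mp h
        have c2 := Prod.ext_iff.mp c1.2
        have c3 := Prod.ext_iff.mp c2.2
        have c4 := Prod.ext_iff.mp c3.2
        exact ⟨c1.1, c4.1, c4.2⟩)
    -- the velocity
    have b5 := dp_add_right hq0 (fun x : F.Ω × F.Ω => Gn F V H X al kk x.2)
      (fun x => dgx F g (cvl (q + k * X) V H) (frm σ a s t) X x.1) (fun x => v x.1)
      (fun x => (F.blb g (cvl (q + k * X) V H) (frm σ a s t) x.1,
          ((Gn F V H n al kk x.1, F.T x.2), F.T x.1)))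
    have b6 := dp_nonneg hq0 (fun x : F.Ω × F.Ω => Gn F V H X al kk x.2) (fun x => v x.1)
      (fun x => (F.blb g (cvl (q + k * X) V H) (frm σ a s t) x.1,
          ((Gn F V H n al kk x.1, F.T x.2), F.T x.1)))
    have b7 : dp (dbl p (slam F g)) (fun x => Gn F V H X al kk x.2)
        (fun x => dgx F g (cvl (q + k * X) V H) (frm σ a s t) X x.1)
        (fun x => (F.T x.2, ((v x.1, Gn F V H n al kk x.1),
          (ctx F σ g (q + k * X) V H a s t x.1, F.T x.1)))) =
        dp (dbl p (slam F g)) (fun x => Gn F V H X al kk x.2)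
        (fun x => dgx F g (cvl (q + k * X) V H) (frm σ a s t) X x.1)
        (fun x => (v x.1, (F.blb g (cvl (q + k * X) V H) (frm σ a s t) x.1,
          ((Gn F V H n al kk x.1, F.T x.2), F.T x.1)))) := by
      refine dp_congr_cond hq0 ?_ ?_ <;>
      · intro x y _ _ h
        unfold ctx at *
        simp only [Prod.mk.injEq] at h ⊢
        tauto
    have b8 : dp (dbl p (slam F g)) (fun x => Gn F V H X al kk x.2)
        (fun x => (dgx F g (cvl (q + k * X) V H) (frm σ a s t) X x.1, v x.1))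
        (fun x => (F.blb g (cvl (q + k * X) V H) (frm σ a s t) x.1,
          ((Gn F V H n al kk x.1, F.T x.2), F.T x.1))) ≤
        dp (dbl p (slam F g)) (fun x => Gn F V H X al kk x.2)
        (fun x => (dgd F (cvl (q + k * X) V H) (frm σ a s t) X x.1,
          dgx F g (cvl (q + k * X) V H) (frm σ a s t) X x.1))
        (fun x => (F.blb g (cvl (q + k * X) V H) (frm σ a s t) x.1,
          ((Gn F V H n al kk x.1, F.T x.2), F.T x.1))) := by
      refine dp_mono hq0 (fun _ _ _ _ h => (Prod.ext_iff.mp h).1) (fun x y _ _ h => ?_)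
      have c1 := Prod.ext_iff.mp (Prod.ext_iff.mp h).1
      exact Prod.ext c1.2 (hv' _ _ c1.1)
    linarith
  have a3 := Finset.sum_le_sum a2
  rw [Finset.sum_add_distrib, Finset.sum_const, card_range, nsmul_eq_mul] at a3
  push_cast at key
  have hM : (0 : ℝ) ≤ M := Nat.cast_nonneg M
  have f1 : 0 ≤ (M : ℝ) * (2 * Real.log (4 * B + 3)) := mul_nonneg hM (by linarith)
  nlinarith

end Pool.S6B20
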