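import Pool.Agent.H10.S6U.Pt

/-!
# Telescopes for the plateau rows

Contexts `F.blb w c M` with one constant frame `M`.

* `b0_tel`: the velocities are one variable for all windows `w + j K`, and the positions at the
  exact time in the context of the window `w + j K` are functions of the next context.
* `m_tel`: any variable `R` is almost independent of the line block of most of the contexts
  `(w, c + k X)`.
* `dp_ref`: references are put into the condition.
-/

set_option autoImplicit false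

namespace Pool.S6B20

open Finset Real
open Pool.Agent.H49.Ent Pool.Agent.H32.Dense Pool.STK Pool.KA Pool.KSAT Pool.K2S Pool.S6U

section abs

variable {Ω S T U V β γ : Type} [Fintype Ω] {p : Ω → ℝ}

/-- **References in the condition.** -/
theorem dp_ref (hp : ∀ ω, 0 ≤ p ω) (N : Ω → S) (V : Ω → T) (R : Ω → U) (b : Ω → β) :
    dp p N V (fun ω => (R ω, b ω)) ≤ dp p N V b + dp p R (fun ω => (N ω, V ω)) b := by
  have h1 := dp_add_right hp N V R b
  have h2 := dp_add_right hp N R V b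
  have h3 : dp p N (fun ω => (V ω, R ω)) b = dp p N (fun ω => (R ω, V ω)) b :=
    le_antisymm
      (dp_mono hp (fun _ _ _ _ h => (Prod.ext_iff.mp h).1) fun ω ω' _ _ h => by
        have := Prod.ext_iff.mp (Prod.ext_iff.mp h).1
        exact Prod.ext this.2 this.1)
      (dp_mono hp (fun _ _ _ _ h => (Prod.ext_iff.mp h).1) fun ω ω' _ _ h => by
        have := Prod.ext_iff.mp (Prod.ext_iff.mp h).1
        exact Prod.ext this.2 this.1)
  have h4 := dp_add hp N V R b
  have h5 := dp_symm hp R (fun ω => (N ω, V ω)) b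
  have h6 := dp_nonneg hp V R b
  have h7 := dp_nonneg hp N R b
  linarith

/-- The same with the condition in the other order. -/
theorem dp_ref' (hp : ∀ ω, 0 ≤ p ω) (N : Ω → S) (V : Ω → T) (R : Ω → U) (b : Ω → β)
    (G : Ω → γ) :
    dp p N V (fun ω => (b ω, (R ω, G ω))) ≤
      dp p N V (fun ω => (b ω, G ω)) +
        dp p R (fun ω => (N ω, V ω)) (fun ω => (b ω, G ω)) := by
  refine le_trans (le_of_eq ?_) (dp_ref hp N V R (fun ω => (b ω, G ω)))
  refine dp_congr_cond hp ?_ ?_ <;>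
  · intro ω ω' _ _ h
    simp only [Prod.mk.injEq] at h ⊢
    tauto

/-- A variable and its references: the times and the rest. -/
theorem dp_split (hp : ∀ ω, 0 ≤ p ω) (R : Ω → S) (R' : Ω → T) (N : Ω → U) (b : Ω → β) :
    dp p (fun ω => (R ω, R' ω)) N b = dp p R' N b + dp p R N (fun ω => (R' ω, b ω)) :=
  dp_add hp R R' N b

end abs

variable {m J : ℕ}

/-- The digits of the position at the exact time. -/
noncomputable def dgx (F : Fam m J) (w : ℕ) (c : Fin m → ℕ) (M : F.Ω → Fin m → Fin m → ℝ)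
    (X : ℕ) (ω : F.Ω) (i : Fin m) : ℤ := Uni.dg X (fun ω => F.mx w c M ω i) ω

/-- The digits of the velocity. -/
noncomputable def dgd (F : Fam m J) (c : Fin m → ℕ) (M : F.Ω → Fin m → Fin m → ℝ)
    (X : ℕ) (ω : F.Ω) (i : Fin m) : ℤ := Uni.dg X (fun ω => F.md c M ω i) ω

section tel

variable {F : Fam m J} {p : F.Ω → ℝ} {Γ S : Type} {w : ℕ} {c : Fin m → ℕ}
  {M : F.Ω → Fin m → Fin m → ℝ} {X : ℕ}

/-- The identity frame change. -/
theorem L_one (k k' : Fin m → ℕ) (h : ∀ i, k' i ≤ k i) (i j : Fin m) :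
    |(if i = j then (1 : ℝ) else 0)| ≤ 1 * 2 ^ k j / 2 ^ k' i := by
  split_ifs with e
  · subst e
    rw [abs_one, one_mul, le_div_iff₀ (by positivity), one_mul]
    exact pow_le_pow_right₀ (by norm_num) (h i)
  · rw [abs_zero]
    positivity

/-- The context of a longer window is a function of the context of a shorter one, up to a bounded
number of values. -/
theorem CH_blb_win {w' : ℕ} (hp : IsLaw p) (hw' : w' ≤ J) (hww : w ≤ w') (W : F.Ω → S)
    (hW : ∀ ω ω', 0 < p ω → 0 < p ω' → W ω = W ω' → F.blb w' c M ω = F.blb w' c M ω') :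
    CH p (F.blb w c M) W ≤ 2 * (m * Real.log (4 * m + 3)) := by
  have key := Box.CH_mlb (F := F) (g := w') (g' := w) (k := fun i => c i + w') (c := c)
    (k' := fun i => c i + w) (c' := c) (kk := fun i => c i + w) (M := M) (M' := M)
    (D := 1) hp hw' (hww.trans hw') zero_le_one (fun i => by
      change c i + w ≤ c i + w'
      omega) (fun i => by
      change c i + w ≤ c i + min w' w
      rw [min_eq_right hww])
    (fun ω _ => ⟨_, Box.cg_refl (M ω), L_one _ _ fun _ => le_rfl, L_one _ _ fun _ => le_rfl⟩) W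
    (fun ω ω' hω hω' h => by
      have b1 := hW ω ω' hω hω' h
      refine ⟨b1, ?_, (Box.mlb_ext b1).2.1⟩
      have t1 := (Box.mlb_ext b1).1
      obtain ⟨K, rfl⟩ := Nat.exists_eq_add_of_le hww
      rw [Pool.KSAT.T1_div F hw' ω, Pool.KSAT.T1_div F hw' ω', t1])
  refine key.trans (le_of_eq ?_)
  congr 3
  ring

/-- The digits of the position at the exact time, from the context of a shorter window, the exact
time and the context. -/
theorem CH_dgx_win {K : ℕ} (hp : IsLaw p) (hw : w + K ≤ J) (hX : X ≤ K) (W : F.Ω → S)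
    (hW : ∀ ω ω', 0 < p ω → 0 < p ω' → W ω = W ω' → F.blb (w + K) c M ω = F.blb (w + K) c M ω' ∧
      F.blb w c M ω = F.blb w c M ω' ∧ F.T ω = F.T ω') :
    CH p (dgx F w c M X) W ≤ m * Real.log 7 := by
  have e7 : (2 : ℝ) * 3 + 1 = 7 := by norm_num
  rw [← e7]
  refine Lab.CH_fin_const hp _ W ?_
  intro ω ω' hω hω' h i
  obtain ⟨b1, b2, b3⟩ := hW ω ω' hω hω' h
  have k1 := Box.pos_eq F (by omega : w ≤ J) c M ω i
  have k2 := Box.pos_eq F (by omega : w ≤ J) c M ω' i
  have k3 := congrFun (Box.mkn_det b2 b3) i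
  have k4 := Box.mx_near hw b1 b3 i
  have k5 : M ω = M ω' := (Box.mlb_ext b1).2.1
  have e1 : (2 : ℝ) ^ X * F.mx w c M ω i - 2 ^ X * F.mx w c M ω' i =
      2 ^ X / 2 ^ K * (2 ^ (c i + (w + K)) * mco (M ω) (F.x ω) i -
        2 ^ (c i + (w + K)) * mco (M ω) (F.x ω') i) := by
    have h1 : F.mx w c M ω i = 2 ^ (c i + w) * mco (M ω) (F.x ω) i - F.mkn w c M ω i := by
      linarith
    have h2 : F.mx w c M ω' i = 2 ^ (c i + w) * mco (M ω) (F.x ω') i - F.mkn w c M ω i := by
      rw [k5, k3]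
      linarith
    rw [h1, h2]
    have e3 : (2 : ℝ) ^ (c i + (w + K)) = 2 ^ (c i + w) * 2 ^ K := by
      rw [← pow_add]
      congr 1
      ring
    rw [e3]
    field_simp
    ring
  have e2 : (2 : ℝ) ^ X / 2 ^ K ≤ 1 := by
    rw [div_le_one (by positivity)]
    exact pow_le_pow_right₀ (by norm_num) hX
  have e4 : |(2 : ℝ) ^ X * F.mx w c M ω i - 2 ^ X * F.mx w c M ω' i| ≤ 2 := by
    rw [e1, abs_mul, abs_of_pos (by positivity : (0 : ℝ) < 2 ^ X / 2 ^ K)]
    have h0 : (0 : ℝ) ≤ 2 ^ X / 2 ^ K := by positivity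
    nlinarith [abs_nonneg (2 ^ (c i + (w + K)) * mco (M ω) (F.x ω) i -
        2 ^ (c i + (w + K)) * mco (M ω) (F.x ω') i)]
  exact (Plk.floor_sub_lt (c := 2) e4).trans (by norm_num)

/-- The digits of the position at the exact time, from the digits of the line. -/
theorem CH_dgx (hp : IsLaw p) (W : F.Ω → S)
    (hW : ∀ ω ω', 0 < p ω → 0 < p ω' → W ω = W ω' → F.T ω = F.T ω' ∧ ∀ i,
      ⌊(2 : ℝ) ^ X * F.mu w (fun i => c i + w) M ω i⌋ =
        ⌊(2 : ℝ) ^ X * F.mu w (fun i => c i + w) M ω' i⌋ ∧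
      ⌊(2 : ℝ) ^ X * F.md c M ω i⌋ = ⌊(2 : ℝ) ^ X * F.md c M ω' i⌋) :
    CH p (dgx F w c M X) W ≤ m * Real.log 7 := by
  have e7 : (2 : ℝ) * 3 + 1 = 7 := by norm_num
  rw [← e7]
  refine Lab.CH_fin_const hp _ W ?_
  intro ω ω' hω hω' h i
  obtain ⟨b1, b2⟩ := hW ω ω' hω hω' h
  obtain ⟨b3, b4⟩ := b2 i
  have e3 : F.wt w ω = F.wt w ω' := wt_det b1
  have k1 := Plk.abs_sub_lt_of_floor b3
  have k2 := Plk.abs_sub_lt_of_floor b4
  have t0 := Lab.wt_mem F w ω
  have e4 : (2 : ℝ) ^ X * F.mx w c M ω i - 2 ^ X * F.mx w c M ω' i =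
    (2 ^ X * F.mu w (fun i => c i + w) M ω i - 2 ^ X * F.mu w (fun i => c i + w) M ω' i) +
    F.wt w ω * (2 ^ X * F.md c M ω i - 2 ^ X * F.md c M ω' i) := by
    unfold Fam.mx
    rw [← e3]
    ring
  refine (Plk.floor_sub_lt (c := 2) ?_).trans (by norm_num)
  rw [e4]
  have k3 : |F.wt w ω * (2 ^ X * F.md c M ω i - 2 ^ X * F.md c M ω' i)| ≤ 1 := by
    rw [abs_mul, abs_of_nonneg t0.1]
    nlinarith [abs_nonneg ((2 : ℝ) ^ X * F.md c M ω i - 2 ^ X * F.md c M ω' i), t0.1, t0.2]
  refine (abs_add_le _ _).trans ?_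
  linarith

/-- **The telescope over the windows**: any variable `N` is almost independent of the position at
the exact time, in most of the contexts of a sequence of windows, for fixed velocities. -/
theorem x_tel (hp : IsLaw p) (n : ℕ) (ws : ℕ → ℕ) (hws : ∀ j, j + 1 < n → ws j + X ≤ ws (j + 1))
    (hJ : ∀ j, j < n → ws j ≤ J) (G : F.Ω → Γ) (N : F.Ω → S) :
    ∑ j ∈ Finset.range n, dp p N (dgx F (ws j) c M X)
      (fun ω => (F.blb (ws j) c M ω, (G ω, F.T ω))) ≤
    CH p N (fun ω => (F.blb (ws 0) c M ω, (G ω, F.T ω))) +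
      n * (m * Real.log 7 + 2 * (m * Real.log (4 * m + 3))) := by
  have h0 := hp.nonneg
  have l1 : 0 ≤ (m : ℝ) * Real.log 7 := mul_nonneg (by positivity) (Real.log_nonneg (by norm_num))
  have l2 : 0 ≤ 2 * ((m : ℝ) * Real.log (4 * m + 3)) := by
    have : 0 ≤ Real.log (4 * (m : ℝ) + 3) :=
      Real.log_nonneg (by have : (0 : ℝ) ≤ m := by positivity
                          linarith)
    positivity
  have key := tele hp n (fun _ => N) (fun j => dgx F (ws j) c M X)
    (fun j ω => (F.blb (ws j) c M ω, (G ω, F.T ω)))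
    (c₁ := m * Real.log 7 + 2 * (m * Real.log (4 * m + 3))) (c₂ := 0) (by positivity) le_rfl
    (fun j hj => by
      have hj2 := hJ (j + 1) hj
      obtain ⟨K, hK⟩ := Nat.exists_eq_add_of_le (show ws j ≤ ws (j + 1) by
        have := hws j hj
        omega)
      have hXK : X ≤ K := by
        have := hws j hj
        omega
      have hj' : ws j + K ≤ J := by omega
      simp only [hK]
      refine (CH_mono_left h0 (X' := fun ω => (dgx F (ws j) c M X ω,
        F.blb (ws j) c M ω)) (W := fun ω =>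
        (F.blb (ws j + K) c M ω, (G ω, F.T ω))) ?_).trans ?_
      · intro ω ω' _ _ h
        simp only [Prod.mk.injEq] at h ⊢
        tauto
      have d1 := CH_le_add h0 (fun ω => (dgx F (ws j) c M X ω,
        F.blb (ws j) c M ω)) (F.blb (ws j) c M)
        (fun ω => (F.blb (ws j + K) c M ω, (G ω, F.T ω)))
      have d2 := CH_blb_win (F := F) (w := ws j) (c := c) (M := M) hp hj' (by omega)
        (fun ω => (F.blb (ws j + K) c M ω, (G ω, F.T ω)))
        (fun ω ω' _ _ h => (Prod.ext_iff.mp h).1)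
      have d3 : CH p (fun ω => (dgx F (ws j) c M X ω, F.blb (ws j) c M ω))
          (fun ω => (F.blb (ws j) c M ω, (F.blb (ws j + K) c M ω, (G ω, F.T ω)))) ≤
          CH p (dgx F (ws j) c M X)
          (fun ω => (F.blb (ws j) c M ω, (F.blb (ws j + K) c M ω, (G ω, F.T ω)))) := by
        refine CH_mono_left h0 ?_
        intro ω ω' _ _ h
        simp only [Prod.mk.injEq] at h ⊢
        tauto
      have d4 := CH_dgx_win (F := F) (w := ws j) (c := c) (M := M) hp hj' hXK
        (fun ω => (F.blb (ws j) c M ω, (F.blb (ws j + K) c M ω, (G ω, F.T ω))))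
        (fun ω ω' _ _ h => by
          simp only [Prod.mk.injEq] at h
          exact ⟨h.2.1, h.1, h.2.2.2⟩)
      linarith)
    (fun j _ => le_of_eq (CH_eq_zero h0 fun ω ω' _ _ h => (Prod.ext_iff.mp h).1))
  simp only [add_zero] at key
  exact key

/-- The finer context determines the context and the digits of the line. -/
theorem blb_fine {c' : Fin m → ℕ} (hc : ∀ i, c i + X ≤ c' i) {ω ω' : F.Ω}
    (h : F.blb w c' M ω = F.blb w c' M ω') :
    F.blb w c M ω = F.blb w c M ω' ∧ ∀ i,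
      ⌊(2 : ℝ) ^ X * F.mu w (fun i => c i + w) M ω i⌋ =
        ⌊(2 : ℝ) ^ X * F.mu w (fun i => c i + w) M ω' i⌋ ∧
      ⌊(2 : ℝ) ^ X * F.md c M ω i⌋ = ⌊(2 : ℝ) ^ X * F.md c M ω' i⌋ := by
  obtain ⟨h1, h2, h3, h4, h5⟩ := Box.mlb_ext h
  have a0 : F.lbr w c M X ω = F.lbr w c M X ω' := by
    refine Box.mlb_mk h1 h2 ?_ ?_ h5
    · funext i
      obtain ⟨j, hj⟩ := Nat.exists_eq_add_of_le (hc i)
      have e := congrFun h3 i
      refine cell_mono (j := j) ?_
      have e' : c i + X + w + j = c' i + w := by omega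
      show ⌊(2 : ℝ) ^ (c i + X + w + j) * _⌋ = ⌊(2 : ℝ) ^ (c i + X + w + j) * _⌋
      rw [e']
      exact e
    · funext i
      obtain ⟨j, hj⟩ := Nat.exists_eq_add_of_le (hc i)
      have e := congrFun h4 i
      refine cell_mono (j := j) ?_
      show ⌊(2 : ℝ) ^ (c i + X + j) * _⌋ = ⌊(2 : ℝ) ^ (c i + X + j) * _⌋
      rw [← hj]
      exact e
  exact ⟨lbr_mono (Nat.zero_le X) a0, fun i => lbr_dig le_rfl a0 i⟩

/-- **The telescope over the scales**: any variable `R` is almost independent of the line blocks. -/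
theorem q_tel (hp : IsLaw p) (n : ℕ) (cs : ℕ → Fin m → ℕ)
    (hcs : ∀ k, k + 1 < n → ∀ i, cs k i + X ≤ cs (k + 1) i) (G : ℕ → F.Ω → Γ)
    (hG : ∀ k, Det p (G (k + 1)) (G k)) (R : F.Ω → S) :
    ∑ k ∈ Finset.range n, dp p R
      (fun ω => (dgd F (cs k) M X ω, dgx F w (cs k) M X ω))
      (fun ω => (F.blb w (cs k) M ω, (G k ω, F.T ω))) ≤
    CH p R (fun ω => (F.blb w (cs 0) M ω, (G 0 ω, F.T ω))) + n * (m * Real.log 7) := by
  have h0 := hp.nonneg
  have l1 : 0 ≤ (m : ℝ) * Real.log 7 := mul_nonneg (by positivity) (Real.log_nonneg (by norm_num))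
  have key := tele hp n (fun _ => R)
    (fun k ω => (dgd F (cs k) M X ω, dgx F w (cs k) M X ω))
    (fun k ω => (F.blb w (cs k) M ω, (G k ω, F.T ω)))
    (c₁ := m * Real.log 7) (c₂ := 0) l1 le_rfl
    (fun k hk => by
      refine (CH_mono_left h0 (X' := dgx F w (cs k) M X)
        (W := fun ω => (F.blb w (cs (k + 1)) M ω, (G (k + 1) ω, F.T ω))) ?_).trans ?_
      · intro ω ω' hω hω' h
        have h1 := Prod.ext_iff.mp h
        have h2 := Prod.ext_iff.mp h1.2
        obtain ⟨a1, a2⟩ := blb_fine (hcs k hk) h2.1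
        have a3 : dgd F (cs k) M X ω = dgd F (cs k) M X ω' := by
          funext i
          exact (a2 i).2
        have a4 : dgx F w (cs k) M X ω = dgx F w (cs k) M X ω' := h1.1
        have a5 := Prod.ext_iff.mp h2.2
        have a6 : G k ω = G k ω' := hG k ω ω' hω hω' a5.1
        have a7 : F.T ω = F.T ω' := a5.2
        show ((dgd F (cs k) M X ω, dgx F w (cs k) M X ω),
          (F.blb w (cs k) M ω, (G k ω, F.T ω))) =
          ((dgd F (cs k) M X ω', dgx F w (cs k) M X ω'),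
          (F.blb w (cs k) M ω', (G k ω', F.T ω')))
        rw [a1, a3, a4, a6, a7]
      · exact CH_dgx hp _ fun ω ω' _ _ h => by
          have h2 := Prod.ext_iff.mp h
          obtain ⟨a1, a2⟩ := blb_fine (hcs k hk) h2.1
          exact ⟨(Prod.ext_iff.mp h2.2).2, a2⟩)
    (fun j _ => le_of_eq (CH_eq_zero h0 fun ω ω' _ _ h => (Prod.ext_iff.mp h).1))
  simp only [add_zero] at key
  exact key

/-- The same for a law on a larger space. -/
theorem q_tel_ext {Ω' : Type} [Fintype Ω'] {q : Ω' → ℝ} (hq : IsLaw q) (pr : Ω' → F.Ω) (n : ℕ)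
    (cs : ℕ → Fin m → ℕ) (hcs : ∀ k, k + 1 < n → ∀ i, cs k i + X ≤ cs (k + 1) i)
    (G : ℕ → Ω' → Γ) (hG : ∀ k, Det q (G (k + 1)) (G k)) (R : Ω' → S) :
    ∑ k ∈ Finset.range n, dp q R
      (fun x => (dgd F (cs k) M X (pr x), dgx F w (cs k) M X (pr x)))
      (fun x => (F.blb w (cs k) M (pr x), (G k x, F.T (pr x)))) ≤
    CH q R (fun x => (F.blb w (cs 0) M (pr x), (G 0 x, F.T (pr x)))) +
      n * (m * Real.log 7) :=
  q_tel (F := F.ext q hq pr) (M := fun x => M (pr x)) (w := w) hq n cs hcs G hG R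

theorem x_tel_ext {Ω' : Type} [Fintype Ω'] {q : Ω' → ℝ} (hq : IsLaw q) (pr : Ω' → F.Ω) (n : ℕ)
    (ws : ℕ → ℕ) (hws : ∀ j, j + 1 < n → ws j + X ≤ ws (j + 1))
    (hJ : ∀ j, j < n → ws j ≤ J) (G : Ω' → Γ) (N : Ω' → S) :
    ∑ j ∈ Finset.range n, dp q N (fun x => dgx F (ws j) c M X (pr x))
      (fun x => (F.blb (ws j) c M (pr x), (G x, F.T (pr x)))) ≤
    CH q N (fun x => (F.blb (ws 0) c M (pr x), (G x, F.T (pr x)))) +
      n * (m * Real.log 7 + 2 * (m * Real.log (4 * m + 3))) :=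
  x_tel (F := F.ext q hq pr) (M := fun x => M (pr x)) hq n ws hws hJ G N

end tel

end Pool.S6B20
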